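import Mathlib

/-!
# Mordell curves of positive rank along geometric progressions

For every integer `a ≠ 0` such that `y² = x³ + a` has positive rank there are infinitely many integers
`Q`, neither squares nor cubes, such that all the curves `y² = x³ + a Q ^ i`, `i ≥ 0`, have positive rank.
In fact all `Q = -27 N ^ 4 t ^ 6` with `N = 2 (108 a + 1)` and `t ≠ 0` have this property.

Proof. The curves `y² = x³ + b` and `y² = x³ - 27 b` are `3`-isogenous, and `Q ^ 3 = -27 (3 N² t³) ^ 6`.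
So the curves for `i + 3` and for `i` are isogenous, and it suffices to look at `i = 0, 1, 2`. The curve for
`i = 1` is isogenous to the one of `a N ^ 4`, and the curve for `i = 2` is isomorphic to the one of `a N²`.
With `r = 108 a` the points come from the identities
`(9 r + 1)² - (1 - 3 r)³ = 27 r (r + 1)²` and
`((r - 1) (r² + 34 r + 1))² - (r² - 14 r + 1)³ = 108 r (r + 1) ^ 4` (the octahedral identity).
A point `(x, y)` on `y² = x³ + b` with `|x|³ > |b|` for the `2`-adic absolute value has infinite order, as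
the doubling of the point multiplies `|x|` by `4`. The isogeny and the scaling are treated on the level of
the orbits of the duplication map on the `x`-coordinates.
-/

namespace Pool.Agent.Results.MP_cfe824_nt.EveryCurve

/-- the curve `y² = x³ + b` over `ℚ` -/
def E (b : ℤ) : WeierstrassCurve ℚ := ⟨0, 0, 0, 0, (b : ℚ)⟩

/-- the rank of the Mordell-Weil group of `y² = x³ + b` -/
noncomputable def rk (b : ℤ) : Cardinal := Module.rank ℤ (E b).toAffine.Point

/-- `(a, Q)` is a proper solution: `Q` is neither a square nor a cube and all the curves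
`y² = x³ + a Q ^ i`, `i ≥ 0`, have positive rank -/
def Proper (a Q : ℤ) : Prop :=
  (¬ ∃ t : ℤ, Q = t ^ 2) ∧ (¬ ∃ t : ℤ, Q = t ^ 3) ∧ ∀ i : ℕ, 0 < rk (a * Q ^ i)

/-! ### The orbits of the duplication map -/

/-- `y² = x³ + b` for rational `b` -/
def W (b : ℚ) : WeierstrassCurve ℚ := ⟨0, 0, 0, 0, b⟩

/-- the duplication map -/
def D (b x : ℚ) : ℚ := x * (x ^ 3 - 8 * b) / (4 * (x ^ 3 + b))

lemma negY_W (b x y : ℚ) : (W b).toAffine.negY x y = -y := by
  simp [W, WeierstrassCurve.Affine.negY]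

lemma equation_W (b x y : ℚ) : (W b).toAffine.Equation x y ↔ y ^ 2 = x ^ 3 + b := by
  rw [WeierstrassCurve.Affine.equation_iff]
  simp [W]

lemma nonsingular_W {b x y : ℚ} (hb : b ≠ 0) (h : y ^ 2 = x ^ 3 + b) :
    (W b).toAffine.Nonsingular x y := by
  rw [WeierstrassCurve.Affine.nonsingular_iff]
  refine ⟨(equation_W b x y).2 h, ?_⟩
  by_contra hcon
  push Not at hcon
  obtain ⟨h1, h2⟩ := hcon
  simp only [W] at h1 h2
  have hx : x = 0 := by
    have : 3 * x ^ 2 = 0 := by linarith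
    have h3 : x ^ 2 = 0 := by linarith
    exact pow_eq_zero_iff two_ne_zero |>.1 h3
  have hy : y = 0 := by linarith
  rw [hx, hy] at h
  apply hb
  linarith

lemma dbl {b x y : ℚ} (h : (W b).toAffine.Nonsingular x y) (hy : y ≠ 0) :
    ∃ (y' : ℚ) (h' : (W b).toAffine.Nonsingular (D b x) y'),
      WeierstrassCurve.Affine.Point.some x y h + WeierstrassCurve.Affine.Point.some x y h
        = WeierstrassCurve.Affine.Point.some _ y' h' := by
  have heq := (equation_W b x y).mp h.1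
  have hneg := negY_W b x y
  have hyne : y ≠ (W b).toAffine.negY x y := by
    rw [hneg]
    intro h0
    apply hy
    linarith
  have hslope : (W b).toAffine.slope x x y y = (3 * x ^ 2) / (2 * y) := by
    rw [WeierstrassCurve.Affine.slope_of_Y_ne rfl hyne, hneg]
    simp only [W]
    congr 1 <;> ring
  have hX : (W b).toAffine.addX x x ((W b).toAffine.slope x x y y) = D b x := by
    rw [hslope, WeierstrassCurve.Affine.addX, D, ← heq]
    simp only [W]
    have h2y : (2 * y) ≠ 0 := by positivity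
    have hb : b = y ^ 2 - x ^ 3 := by linarith
    rw [hb]
    field_simp
    ring
  rw [WeierstrassCurve.Affine.Point.add_self_of_Y_ne hyne]
  refine ⟨_, hX ▸ (WeierstrassCurve.Affine.nonsingular_add h h fun hxy => hyne hxy.right), ?_⟩
  simp only [WeierstrassCurve.Affine.Point.some.injEq]
  exact ⟨hX, trivial⟩

/-- there is a rational point such that its multiples by the powers of two are not zero, not of order
two, and have distinct `x`-coordinates -/
def Orb (b : ℚ) : Prop :=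
  ∃ x y : ℚ, y ^ 2 = x ^ 3 + b ∧ (∀ k : ℕ, ((D b)^[k] x) ^ 3 + b ≠ 0) ∧
    Function.Injective (fun k : ℕ => (D b)^[k] x)

lemma pos_of_orb {b : ℚ} (hb : b ≠ 0) (h : Orb b) : 0 < Module.rank ℤ (W b).toAffine.Point := by
  obtain ⟨x, y, hxy, h1, h2⟩ := h
  rw [pos_iff_ne_zero, Ne, rank_eq_zero_iff]
  push Not
  refine ⟨WeierstrassCurve.Affine.Point.some x y (nonsingular_W hb hxy), ?_⟩
  set P : (W b).toAffine.Point := WeierstrassCurve.Affine.Point.some x y (nonsingular_W hb hxy)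
    with hP
  have key : ∀ k : ℕ, ∃ (y' : ℚ) (h' : (W b).toAffine.Nonsingular ((D b)^[k] x) y'),
      (2 ^ k : ℕ) • P = WeierstrassCurve.Affine.Point.some _ y' h' := by
    intro k
    induction k with
    | zero => exact ⟨y, nonsingular_W hb hxy, by simp [hP]⟩
    | succ k ih =>
      obtain ⟨y1, h1', he⟩ := ih
      have hy1 : y1 ≠ 0 := by
        rintro rfl
        have h3 := (equation_W b _ _).1 h1'.1
        apply h1 k
        rw [← h3]; ring
      obtain ⟨y2, h2', he2⟩ := dbl h1' hy1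
      have h3 : (2 ^ (k + 1) : ℕ) • P = (2 ^ k : ℕ) • P + (2 ^ k : ℕ) • P := by
        rw [← add_nsmul]; congr 1; ring
      rw [h3, he, he2]
      have h4 : D b ((D b)^[k] x) = (D b)^[k + 1] x := (Function.iterate_succ_apply' _ _ _).symm
      refine ⟨y2, h4 ▸ h2', ?_⟩
      simp only [WeierstrassCurve.Affine.Point.some.injEq]
      exact ⟨h4, trivial⟩
  intro n hn h0
  have hfin : IsOfFinAddOrder P := by
    rw [isOfFinAddOrder_iff_zsmul_eq_zero]
    exact ⟨n, hn, h0⟩
  have hfs : (Set.range (fun n : ℕ => n • P)).Finite := by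
    have := hfin.finite_multiples
    convert this using 1
    ext Q
    simp [AddSubmonoid.mem_multiples_iff]
  have hinj : Function.Injective (fun k : ℕ => (2 ^ k : ℕ) • P) := by
    intro k l hkl
    simp only at hkl
    obtain ⟨y1, h1', he⟩ := key k
    obtain ⟨y2, h2', he2⟩ := key l
    rw [he, he2] at hkl
    simp only [WeierstrassCurve.Affine.Point.some.injEq] at hkl
    exact h2 hkl.1
  have hinf := Set.infinite_range_of_injective hinj
  apply hinf
  apply hfs.subset
  rintro _ ⟨k, rfl⟩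
  exact ⟨2 ^ k, rfl⟩

lemma orb_of_pos {b : ℚ} (h : 0 < Module.rank ℤ (W b).toAffine.Point) : Orb b := by
  rw [pos_iff_ne_zero, Ne, rank_eq_zero_iff] at h
  push Not at h
  obtain ⟨P, hP⟩ := h
  rcases P with _ | ⟨x, y, hxy⟩
  · exact absurd (smul_zero (1 : ℤ)) (hP 1 one_ne_zero)
  set P : (W b).toAffine.Point := WeierstrassCurve.Affine.Point.some x y hxy with hPd
  have hP' : ∀ n : ℕ, n ≠ 0 → n • P ≠ 0 := by
    intro n hn h0
    apply hP n (by exact_mod_cast hn)
    rw [natCast_zsmul]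
    exact h0
  have key : ∀ k : ℕ, ∃ (y' : ℚ) (h' : (W b).toAffine.Nonsingular ((D b)^[k] x) y'),
      (2 ^ k : ℕ) • P = WeierstrassCurve.Affine.Point.some _ y' h' ∧ y' ≠ 0 := by
    have aux : ∀ (k : ℕ) (X Y : ℚ) (h' : (W b).toAffine.Nonsingular X Y),
        (2 ^ k : ℕ) • P = WeierstrassCurve.Affine.Point.some X Y h' → Y ≠ 0 := by
      rintro k X Y h' he rfl
      apply hP' (2 ^ (k + 1)) (by positivity)
      have h3 : (2 ^ (k + 1) : ℕ) • P = (2 ^ k : ℕ) • P + (2 ^ k : ℕ) • P := by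
        rw [← add_nsmul]; congr 1; ring
      rw [h3, he]
      apply WeierstrassCurve.Affine.Point.add_of_Y_eq rfl
      rw [negY_W]; ring
    intro k
    induction k with
    | zero =>
      have he : (2 ^ 0 : ℕ) • P = WeierstrassCurve.Affine.Point.some x y hxy := by simp [hPd]
      exact ⟨y, hxy, he, aux 0 x y hxy he⟩
    | succ k ih =>
      obtain ⟨y1, h1', he, hy1⟩ := ih
      obtain ⟨y2, h2', he2⟩ := dbl h1' hy1
      have h3 : (2 ^ (k + 1) : ℕ) • P = (2 ^ k : ℕ) • P + (2 ^ k : ℕ) • P := by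
        rw [← add_nsmul]; congr 1; ring
      have h4 : D b ((D b)^[k] x) = (D b)^[k + 1] x := (Function.iterate_succ_apply' _ _ _).symm
      rw [← h4]
      have h5 : (2 ^ (k + 1) : ℕ) • P = WeierstrassCurve.Affine.Point.some _ y2 h2' := by
        rw [h3, he, he2]
      exact ⟨y2, h2', h5, aux _ _ _ _ h5⟩
  refine ⟨x, y, (equation_W b x y).1 hxy.1, fun k => ?_, ?_⟩
  · obtain ⟨y1, h1', -, hy1⟩ := key k
    have h3 := (equation_W b _ _).1 h1'.1
    rw [← h3]
    exact pow_ne_zero 2 hy1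
  · intro k l hkl
    simp only at hkl
    by_contra hne
    obtain ⟨y1, h1', he, -⟩ := key k
    obtain ⟨y2, h2', he2, -⟩ := key l
    have e1 := (equation_W b _ _).1 h1'.1
    have e2 := (equation_W b _ _).1 h2'.1
    have e3 : y1 ^ 2 = y2 ^ 2 := by rw [e1, e2, hkl]
    rcases sq_eq_sq_iff_eq_or_eq_neg.1 e3 with h | h
    · have h6 : ((2 ^ k : ℕ) : ℤ) • P = ((2 ^ l : ℕ) : ℤ) • P := by
        rw [natCast_zsmul, natCast_zsmul, he, he2]
        simp only [WeierstrassCurve.Affine.Point.some.injEq]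
        exact ⟨hkl, h⟩
      apply hP (((2 ^ k : ℕ) : ℤ) - ((2 ^ l : ℕ) : ℤ))
      · intro h0
        apply hne
        have h7 : (2 ^ k : ℕ) = 2 ^ l := by
          have := sub_eq_zero.1 h0
          exact_mod_cast this
        exact Nat.pow_right_injective le_rfl h7
      · rw [sub_smul, h6, sub_self]
    · have h6 : ((2 ^ k : ℕ) : ℤ) • P = - (((2 ^ l : ℕ) : ℤ) • P) := by
        rw [natCast_zsmul, natCast_zsmul, he, he2, WeierstrassCurve.Affine.Point.neg_some]
        simp only [WeierstrassCurve.Affine.Point.some.injEq]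
        exact ⟨hkl, by rw [negY_W, h]⟩
      apply hP (((2 ^ k : ℕ) : ℤ) + ((2 ^ l : ℕ) : ℤ))
      · positivity
      · rw [add_smul, h6, neg_add_cancel]

/-- an infinite orbit has no repetition -/
lemma injective_of_infinite {α : Type} (f : α → α) (x : α)
    (h : (Set.range fun k : ℕ => f^[k] x).Infinite) : Function.Injective fun k : ℕ => f^[k] x := by
  have main : ∀ k l : ℕ, k < l → f^[k] x ≠ f^[l] x := by
    intro k l hkl he
    apply h
    have h1 : ∀ j : ℕ, ∃ i < l, f^[j] x = f^[i] x := by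
      intro j
      induction j using Nat.strong_induction_on with
      | _ j ih =>
        rcases lt_or_ge j l with hj | hj
        · exact ⟨j, hj, rfl⟩
        · obtain ⟨m, rfl⟩ := Nat.exists_eq_add_of_le hj
          obtain ⟨i, hi, hi2⟩ := ih (k + m) (by omega)
          refine ⟨i, hi, ?_⟩
          rw [← hi2, Nat.add_comm l m, Nat.add_comm k m, Function.iterate_add_apply,
            Function.iterate_add_apply, he]
    refine ((Finset.range l).finite_toSet.image fun k : ℕ => f^[k] x).subset ?_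
    rintro _ ⟨j, rfl⟩
    obtain ⟨i, hi, hi2⟩ := h1 j
    exact ⟨i, by simpa using hi, hi2.symm⟩
  intro k l hkl
  simp only at hkl
  rcases lt_trichotomy k l with h1 | h1 | h1
  · exact absurd hkl (main k l h1)
  · exact h1
  · exact absurd hkl.symm (main l k h1)

/-- the `3`-isogeny from `y² = x³ + b` to `y² = x³ - 27 b`, followed by the scaling by `t` -/
lemma iso3 {b t : ℚ} (_hb : b ≠ 0) (ht : t ≠ 0) (h : Orb b) : Orb (-27 * b * t ^ 6) := by
  obtain ⟨x, y, hxy, h1, h2⟩ := h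
  set X : ℕ → ℚ := fun k => (D b)^[k] x with hX
  have hsucc : ∀ k, X (k + 1) = D b (X k) := fun k => Function.iterate_succ_apply' _ _ _
  have hX0 : ∀ k, X k ≠ 0 := by
    intro k hk
    have h3 : X (k + 1) = X k := by
      rw [hsucc, hk, D]; ring
    have h4 := h2 h3
    omega
  have hX8 : ∀ k, X k ^ 3 - 8 * b ≠ 0 := by
    intro k hk
    apply hX0 (k + 1)
    rw [hsucc, D, hk]; ring
  have hXb : ∀ k, X k ^ 3 + b ≠ 0 := h1
  set g : ℚ → ℚ := fun x => t ^ 2 * (x ^ 3 + 4 * b) / x ^ 2 with hg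
  have hval : ∀ k, g (X k) ^ 3 + -27 * b * t ^ 6 =
      t ^ 6 * (X k ^ 3 + b) * (X k ^ 3 - 8 * b) ^ 2 / X k ^ 6 := by
    intro k
    have h3 := hX0 k
    rw [hg]
    field_simp
    ring
  have hstep : ∀ k, D (-27 * b * t ^ 6) (g (X k)) = g (X (k + 1)) := by
    intro k
    have h3 := hX0 k
    have h4 := hX8 k
    have h5 := hXb k
    rw [D, hval, hsucc, hg, D]
    simp only
    generalize X k = z at *
    field_simp
    ring
  have hiter : ∀ k, (D (-27 * b * t ^ 6))^[k] (g x) = g (X k) := by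
    intro k
    induction k with
    | zero => rfl
    | succ k ih => rw [Function.iterate_succ_apply', ih, hstep]
  refine ⟨g x, t ^ 3 * y * (x ^ 3 - 8 * b) / x ^ 3, ?_, fun k => ?_, ?_⟩
  · have h3 := hval 0
    have h4 := hX0 0
    change g x ^ 3 + _ = t ^ 6 * (x ^ 3 + b) * (x ^ 3 - 8 * b) ^ 2 / x ^ 6 at h3
    change x ≠ 0 at h4
    rw [h3, ← hxy]
    field_simp
  · rw [hiter, hval]
    have h3 := hX0 k
    have h4 := hX8 k
    have h5 := hXb k
    positivity
  · apply injective_of_infinite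
    simp only [hiter]
    intro hfin
    have h3 : ((fun k : ℕ => g (X k)) ⁻¹' Set.range fun k : ℕ => g (X k)).Finite := by
      apply Set.Finite.preimage' hfin
      rintro z -
      have hp : (Polynomial.C (t ^ 2) * Polynomial.X ^ 3 - Polynomial.C z * Polynomial.X ^ 2 +
          Polynomial.C (4 * b * t ^ 2) : Polynomial ℚ) ≠ 0 := by
        intro h0
        have h4 := congrArg (fun p : Polynomial ℚ => p.coeff 3) h0
        simp only [Polynomial.coeff_add, Polynomial.coeff_sub, Polynomial.coeff_C_mul,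
          Polynomial.coeff_X_pow, Polynomial.coeff_C, Polynomial.coeff_zero] at h4
        norm_num at h4
        exact ht h4
      have h5 := (Polynomial.finite_setOfPred_isRoot hp).preimage (f := X) h2.injOn
      refine h5.subset ?_
      intro k hk
      have hk' : t ^ 2 * (X k ^ 3 + 4 * b) / X k ^ 2 = z := hk
      have h6 := hX0 k
      rw [div_eq_iff (by positivity)] at hk'
      simp only [Set.mem_preimage, Set.mem_ofPred_eq, Polynomial.IsRoot.def, Polynomial.eval_add,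
        Polynomial.eval_sub, Polynomial.eval_mul, Polynomial.eval_C, Polynomial.eval_pow,
        Polynomial.eval_X]
      linear_combination hk'
    rw [Set.preimage_range] at h3
    exact Set.infinite_univ h3

lemma scale {b u : ℚ} (hb : b ≠ 0) (hu : u ≠ 0) (h : Orb b) : Orb (b * u ^ 6) := by
  have h1 := iso3 (by simpa using hb) (div_ne_zero hu (by norm_num : (3 : ℚ) ≠ 0))
    (iso3 hb one_ne_zero h)
  have h2 : -27 * (-27 * b * 1 ^ 6) * (u / 3) ^ 6 = b * u ^ 6 := by ring
  rwa [h2] at h1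

/-! ### The 2-adic criterion -/

lemma padic4 : padicNorm 2 (4 : ℚ) = 1 / 4 := by
  have h := padicNorm.padicNorm_p (p := 2) (by norm_num)
  have h2 : (4 : ℚ) = ((2 : ℕ) : ℚ) * ((2 : ℕ) : ℚ) := by norm_num
  rw [h2, padicNorm.mul, h]
  norm_num

lemma padic_step {b x : ℚ} (hx : padicNorm 2 b < padicNorm 2 x ^ 3) :
    x ^ 3 + b ≠ 0 ∧ padicNorm 2 (D b x) = 4 * padicNorm 2 x := by
  have hb0 := padicNorm.nonneg (p := 2) b
  have hcube : padicNorm 2 (x ^ 3) = padicNorm 2 x ^ 3 := by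
    rw [pow_succ, pow_two, padicNorm.mul, padicNorm.mul]; ring
  have hpos : 0 < padicNorm 2 x := by
    rcases (padicNorm.nonneg (p := 2) x).lt_or_eq with h | h
    · exact h
    · rw [← h] at hx
      norm_num at hx
      linarith
  have h1 : padicNorm 2 (x ^ 3 + b) = padicNorm 2 x ^ 3 := by
    rw [padicNorm.add_eq_max_of_ne (by rw [hcube]; exact hx.ne'), hcube, max_eq_left hx.le]
  have h8 : padicNorm 2 (-(8 * b)) ≤ padicNorm 2 b := by
    rw [padicNorm.neg, padicNorm.mul]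
    have h3 : padicNorm 2 (8 : ℚ) ≤ 1 := by exact_mod_cast padicNorm.of_int (p := 2) 8
    nlinarith
  have h2 : padicNorm 2 (x ^ 3 - 8 * b) = padicNorm 2 x ^ 3 := by
    rw [sub_eq_add_neg, padicNorm.add_eq_max_of_ne (by rw [hcube]; exact (h8.trans_lt hx).ne'),
      hcube, max_eq_left (h8.trans_lt hx).le]
  constructor
  · intro h0
    rw [h0, padicNorm.zero] at h1
    have : 0 < padicNorm 2 x ^ 3 := by positivity
    linarith
  · rw [D, padicNorm.div, padicNorm.mul, padicNorm.mul, h1, h2, padic4]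
    field_simp

lemma orb_of_padic {b x y : ℚ} (h : y ^ 2 = x ^ 3 + b) (hx : padicNorm 2 b < padicNorm 2 x ^ 3) :
    Orb b := by
  have hb0 := padicNorm.nonneg (p := 2) b
  have hpos : 0 < padicNorm 2 x := by
    rcases (padicNorm.nonneg (p := 2) x).lt_or_eq with h | h
    · exact h
    · rw [← h] at hx
      norm_num at hx
      linarith
  have key : ∀ k : ℕ, padicNorm 2 ((D b)^[k] x) = 4 ^ k * padicNorm 2 x := by
    intro k
    induction k with
    | zero => simp
    | succ k ih =>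
      have h1 : padicNorm 2 b < padicNorm 2 ((D b)^[k] x) ^ 3 := by
        rw [ih, mul_pow]
        have h4 : (1 : ℚ) ≤ (4 ^ k) ^ 3 := one_le_pow₀ (one_le_pow₀ (by norm_num))
        have h5 : 0 < padicNorm 2 x ^ 3 := by positivity
        nlinarith
      rw [Function.iterate_succ_apply', (padic_step h1).2, ih]
      ring
  refine ⟨x, y, h, fun k => ?_, ?_⟩
  · apply (padic_step _).1
    rw [key, mul_pow]
    have h4 : (1 : ℚ) ≤ (4 ^ k) ^ 3 := one_le_pow₀ (one_le_pow₀ (by norm_num))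
    have h5 : 0 < padicNorm 2 x ^ 3 := by positivity
    nlinarith
  · intro k l hkl
    simp only at hkl
    have h1 := key k
    rw [hkl, key l] at h1
    have h2 : (4 : ℚ) ^ l = 4 ^ k := mul_right_cancel₀ hpos.ne' h1
    exact (pow_right_injective₀ (by norm_num) (by norm_num) h2).symm

lemma padic_odd_div (m : ℤ) (hm : Odd m) : padicNorm 2 ((m : ℚ) / 9) = 1 := by
  rw [padicNorm.div]
  have h1 : padicNorm 2 (m : ℚ) = 1 := by
    rw [padicNorm.int_eq_one_iff]
    intro h
    have h2 : (2 : ℤ) ∣ m := by exact_mod_cast h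
    exact (Int.not_even_iff_odd.2 hm) (even_iff_two_dvd.2 h2)
  have h2 : padicNorm 2 (9 : ℚ) = 1 := by
    have h3 : padicNorm 2 ((9 : ℤ) : ℚ) = 1 := by
      rw [padicNorm.int_eq_one_iff]
      norm_num
    exact_mod_cast h3
  rw [h1, h2]; norm_num

lemma padic_mul4 (m : ℤ) : padicNorm 2 (4 * (m : ℚ)) < 1 := by
  rw [padicNorm.mul, padic4]
  have := padicNorm.of_int (p := 2) m
  linarith

/-! ### The points -/

/-- `N = 2 (108 a + 1)` -/
def N (a : ℤ) : ℤ := 2 * (108 * a + 1)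

lemma N_ne (a : ℤ) : N a ≠ 0 := by
  unfold N; omega

lemma orb2 (a : ℤ) : Orb ((a : ℚ) * (N a : ℚ) ^ 2) := by
  refine orb_of_padic (x := ((1 - 324 * a : ℤ) : ℚ) / 9) (y := (972 * a + 1) / 27) ?_ ?_
  · unfold N
    push_cast
    ring
  · rw [padic_odd_div _ ⟨-162 * a, by ring⟩, one_pow]
    have h : (a : ℚ) * (N a : ℚ) ^ 2 = 4 * ((a * (108 * a + 1) ^ 2 : ℤ) : ℚ) := by
      unfold N; push_cast; ring
    rw [h]
    exact padic_mul4 _

lemma orb4 (a : ℤ) : Orb ((a : ℚ) * (N a : ℚ) ^ 4) := by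
  refine orb_of_padic (x := (((108 * a) ^ 2 - 14 * (108 * a) + 1 : ℤ) : ℚ) / 9)
    (y := (108 * a - 1) * ((108 * a) ^ 2 + 34 * (108 * a) + 1) / 27) ?_ ?_
  · unfold N
    push_cast
    ring
  · rw [padic_odd_div _ ⟨5832 * a ^ 2 - 756 * a, by ring⟩, one_pow]
    have h : (a : ℚ) * (N a : ℚ) ^ 4 = 4 * ((4 * a * (108 * a + 1) ^ 4 : ℤ) : ℚ) := by
      unfold N; push_cast; ring
    rw [h]
    exact padic_mul4 _

/-- the ratios -/
def Q (a t : ℤ) : ℤ := -27 * N a ^ 4 * t ^ 6

lemma orb_all {a t : ℤ} (ha : a ≠ 0) (ht : t ≠ 0) (h : Orb (a : ℚ)) :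
    ∀ i : ℕ, Orb ((a : ℚ) * (Q a t : ℚ) ^ i) := by
  have ha' : (a : ℚ) ≠ 0 := by exact_mod_cast ha
  have ht' : (t : ℚ) ≠ 0 := by exact_mod_cast ht
  have hN : (N a : ℚ) ≠ 0 := by exact_mod_cast N_ne a
  have hQ : (Q a t : ℚ) = -27 * (N a : ℚ) ^ 4 * (t : ℚ) ^ 6 := by
    unfold Q; push_cast; ring
  have hQ0 : (Q a t : ℚ) ≠ 0 := by
    rw [hQ]
    exact mul_ne_zero (mul_ne_zero (by norm_num) (pow_ne_zero _ hN)) (pow_ne_zero _ ht')
  have key : ∀ i : ℕ, Orb ((a : ℚ) * (Q a t : ℚ) ^ i) ∧ Orb ((a : ℚ) * (Q a t : ℚ) ^ (i + 1)) ∧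
      Orb ((a : ℚ) * (Q a t : ℚ) ^ (i + 2)) := by
    intro i
    induction i with
    | zero =>
      refine ⟨by simpa using h, ?_, ?_⟩
      · have h1 := iso3 (mul_ne_zero ha' (pow_ne_zero 4 hN)) ht' (orb4 a)
        have h2 : -27 * ((a : ℚ) * (N a : ℚ) ^ 4) * (t : ℚ) ^ 6 =
            (a : ℚ) * (Q a t : ℚ) ^ (0 + 1) := by rw [hQ]; ring
        rwa [h2] at h1
      · have h1 := scale (mul_ne_zero ha' (pow_ne_zero 2 hN))
          (mul_ne_zero (mul_ne_zero (by norm_num : (3 : ℚ) ≠ 0) hN) (pow_ne_zero 2 ht')) (orb2 a)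
        have h2 : (a : ℚ) * (N a : ℚ) ^ 2 * (3 * (N a : ℚ) * (t : ℚ) ^ 2) ^ 6 =
            (a : ℚ) * (Q a t : ℚ) ^ (0 + 2) := by rw [hQ]; ring
        rwa [h2] at h1
    | succ i ih =>
      obtain ⟨h0, h1, h2⟩ := ih
      refine ⟨h1, by simpa [add_assoc] using h2, ?_⟩
      have h3 := iso3 (mul_ne_zero ha' (pow_ne_zero i hQ0))
        (mul_ne_zero (mul_ne_zero (by norm_num : (3 : ℚ) ≠ 0) (pow_ne_zero 2 hN))
          (pow_ne_zero 3 ht')) h0
      have h4 : -27 * ((a : ℚ) * (Q a t : ℚ) ^ i) * (3 * (N a : ℚ) ^ 2 * (t : ℚ) ^ 3) ^ 6 =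
          (a : ℚ) * (Q a t : ℚ) ^ (i + 1 + 2) := by
        have h5 : (Q a t : ℚ) ^ (i + 1 + 2) = (Q a t : ℚ) ^ i * (Q a t : ℚ) ^ 3 := by ring
        have h6 : (Q a t : ℚ) ^ 3 = -27 * (3 * (N a : ℚ) ^ 2 * (t : ℚ) ^ 3) ^ 6 := by
          rw [hQ]; ring
        rw [h5, h6]; ring
      rwa [h4] at h3
  exact fun i => (key i).1

lemma not_square (a : ℤ) {t : ℤ} (ht : t ≠ 0) : ¬ ∃ s : ℤ, Q a t = s ^ 2 := by
  rintro ⟨s, hs⟩
  have h1 : 0 < N a ^ 4 := by
    have := N_ne a
    positivity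
  have h2 : 0 < t ^ 6 := by positivity
  have h3 : 0 < N a ^ 4 * t ^ 6 := mul_pos h1 h2
  unfold Q at hs
  nlinarith [sq_nonneg s]

lemma not_cube (a : ℤ) {t : ℤ} (ht : t ≠ 0) : ¬ ∃ s : ℤ, Q a t = s ^ 3 := by
  rintro ⟨s, hs⟩
  unfold Q N at hs
  have hd : t ^ 2 ∣ s := by
    rw [← Int.pow_dvd_pow_iff (n := 3) (by norm_num)]
    exact ⟨-27 * (2 * (108 * a + 1)) ^ 4, by rw [← hs]; ring⟩
  obtain ⟨r, rfl⟩ := hd
  have ht6 : t ^ 6 ≠ 0 := pow_ne_zero 6 ht
  have h1 : r ^ 3 = -432 * (108 * a + 1) ^ 4 := by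
    apply mul_left_cancel₀ ht6
    linear_combination -hs
  have h2 : Even r := by
    have h3 : Even (r ^ 3) := ⟨-216 * (108 * a + 1) ^ 4, by rw [h1]; ring⟩
    exact (Int.even_pow.1 h3).1
  obtain ⟨r1, rfl⟩ := h2
  have h3 : r1 ^ 3 = -54 * (108 * a + 1) ^ 4 := by
    have h4 : (r1 + r1) ^ 3 = 8 * r1 ^ 3 := by ring
    rw [h4] at h1
    linarith
  have h4 : Even r1 := by
    have h5 : Even (r1 ^ 3) := ⟨-27 * (108 * a + 1) ^ 4, by rw [h3]; ring⟩
    exact (Int.even_pow.1 h5).1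
  obtain ⟨r2, rfl⟩ := h4
  have h5 : 4 * r2 ^ 3 = -27 * (108 * a + 1) ^ 4 := by
    have h6 : (r2 + r2) ^ 3 = 8 * r2 ^ 3 := by ring
    rw [h6] at h3
    linarith
  have h6 : Odd (27 * (108 * a + 1) ^ 4) := by
    apply Odd.mul (by decide)
    apply Odd.pow
    exact ⟨54 * a, by ring⟩
  have h7 : Even (27 * (108 * a + 1) ^ 4) := ⟨-2 * r2 ^ 3, by linarith⟩
  exact (Int.not_even_iff_odd.2 h6) h7

lemma rk_pos_iff {b : ℤ} (hb : b ≠ 0) : 0 < rk b ↔ Orb (b : ℚ) :=
  ⟨fun h => orb_of_pos h, fun h => pos_of_orb (by exact_mod_cast hb) h⟩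

/-- all the `Q = -27 (2 (108 a + 1)) ^ 4 t ^ 6` are proper -/
theorem proper_Q {a t : ℤ} (ha : a ≠ 0) (ht : t ≠ 0) (h : 0 < rk a) : Proper a (Q a t) := by
  refine ⟨not_square a ht, not_cube a ht, fun i => ?_⟩
  have hQ0 : Q a t ≠ 0 := fun h0 => not_square a ht ⟨0, by rw [h0]; rfl⟩
  rw [rk_pos_iff (mul_ne_zero ha (pow_ne_zero i hQ0))]
  have h1 := orb_all ha ht ((rk_pos_iff ha).1 h) i
  push_cast
  exact h1

/-- **Theorem.** For every integer `a ≠ 0` for which `y² = x³ + a` has positive rank there are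
infinitely many integers `Q`, neither squares nor cubes, such that `y² = x³ + a Q ^ i` has positive rank
for all `i ≥ 0`. -/
theorem result : ∀ a : ℤ, a ≠ 0 → 0 < rk a → {Q : ℤ | Proper a Q}.Infinite := by
  intro a ha h
  refine Set.infinite_of_injective_forall_mem (f := fun t : ℕ => Q a (t + 1)) ?_ ?_
  · intro t u htu
    simp only [Q] at htu
    have hN : (-27 * N a ^ 4 : ℤ) ≠ 0 := mul_ne_zero (by norm_num) (pow_ne_zero 4 (N_ne a))
    have h1 := mul_left_cancel₀ hN htu
    have h2 : ((t : ℤ) + 1) = (u : ℤ) + 1 :=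
      (pow_left_inj₀ (by positivity) (by positivity) (by norm_num)).1 h1
    omega
  · intro t
    exact proper_Q ha (by positivity) h

end Pool.Agent.Results.MP_cfe824_nt.EveryCurve
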